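import Pool.Agent.helper12.GS.Pm

/-!
Generated: constants of the corner programs of the table Q30a.
-/

namespace Pool.Agent.helper12.K30

open Pool.Agent.helper31.IA (Z)
open Pool.Agent.helper12.GS

def p0 : Pm where
  ec := ⟨30601641984, 0, 0, 0⟩
  bc := ⟨0, 0, 0, 0⟩
  nn := ⟨1099511627776, 0, 0, 0⟩
  tj := ⟨4398046511104, 0, 0, 0⟩
  ca := ⟨1099511627776, 0, 0, 0⟩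
  cb := ⟨879662989312, 0, 0, 0⟩
  cc := ⟨0, 0, 0, 0⟩
  ax := ⟨0, 0, 0, 0⟩
  ay := ⟨0, 0, 0, 0⟩
  xa := ⟨0, 0, 0, 0⟩
  C2 := ⟨0, 0, 0, 0⟩
  wr := ⟨0, 814970044416, 0, 0⟩
  wi := ⟨5872294035456, 0, 0, 0⟩
  w1 := ⟨0, 14637248544768, 0, 0⟩
  h000 := ⟨0, 29881778752, 0, 0⟩
  h001 := ⟨7565918464, 0, 0, 0⟩
  h002 := ⟨2663823232, 0, 0, 0⟩
  h003 := ⟨0, 1220724288, 0, 0⟩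
  h010 := ⟨0, 1582738799680, 0, 0⟩
  h011 := ⟨461079070336, 0, 0, 0⟩
  h012 := ⟨0, 0, 0, 0⟩
  h020 := ⟨6674555009536, 0, 0, 0⟩
  h021 := ⟨0, 0, 0, 0⟩
  h030 := ⟨0, 0, 0, 0⟩
  h100 := ⟨2148141568, 0, 0, 0⟩
  h101 := ⟨0, 291540352, 0, 0⟩
  h102 := ⟨0, 757135296, 0, 0⟩
  h110 := ⟨116652982464, 0, 0, 0⟩
  h111 := ⟨0, 262998050496, 0, 0⟩
  h120 := ⟨0, 0, 0, 0⟩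
  h200 := ⟨334015680, 0, 0, 0⟩
  h201 := ⟨0, 299427904, 0, 0⟩
  h202 := ⟨500226496, 0, 0, 0⟩
  h210 := ⟨16317353408, 0, 0, 0⟩
  h211 := ⟨0, 0, 0, 0⟩
  h300 := ⟨0, 104876352, 0, 0⟩
  h301 := ⟨66157632, 0, 0, 0⟩
  h310 := ⟨0, 5324967808, 0, 0⟩
  h400 := ⟨4714624, 0, 0, 0⟩
  h401 := ⟨0, 7007936, 0, 0⟩
  h410 := ⟨0, 0, 0, 0⟩
  h500 := ⟨1386560, 0, 0, 0⟩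
  h501 := ⟨0, 0, 0, 0⟩
  h600 := ⟨0, 380416, 0, 0⟩
  h700 := ⟨0, 0, 0, 0⟩
  h800 := ⟨0, 0, 0, 0⟩
  m000 := ⟨1093372805120, 0, 0, 0⟩
  m001 := ⟨0, 710410240, 0, 0⟩
  m002 := ⟨6197608448, 0, 0, 0⟩
  m010 := ⟨209721884672, 0, 0, 0⟩
  m100 := ⟨19685310464, 0, 0, 0⟩
  m101 := ⟨594870272, 0, 0, 0⟩
  m110 := ⟨561629495296, 0, 0, 0⟩
  m200 := ⟨0, 1189609472, 0, 0⟩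
  m300 := ⟨152764416, 0, 0, 0⟩
  a00 := ⟨110755774464, 0, 0, 0⟩
  a01 := ⟨135424245760, 0, 0, 0⟩
  a02 := ⟨420464164864, 0, 0, 0⟩
  a03 := ⟨0, 888688476160, 0, 0⟩
  a10 := ⟨985777831936, 0, 0, 0⟩
  a11 := ⟨0, 2605876969472, 0, 0⟩
  b00 := ⟨89598722048, 0, 0, 0⟩
  b01 := ⟨74841391104, 0, 0, 0⟩
  b02 := ⟨457049112576, 0, 0, 0⟩
  b03 := ⟨0, 1294151778304, 0, 0⟩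
  b10 := ⟨663734845440, 0, 0, 0⟩
  b11 := ⟨0, 2631204274176, 0, 0⟩
  t00 := ⟨1325153583104, 0, 0, 0⟩
  t01 := ⟨0, 186026688512, 0, 0⟩
  t02 := ⟨3316101349376, 0, 0, 0⟩
  t03 := ⟨0, 6294631481344, 0, 0⟩
  t10 := ⟨11536535715840, 0, 0, 0⟩
  t11 := ⟨0, 16339359498240, 0, 0⟩
  s00 := ⟨1448626159616, 0, 0, 0⟩
  s01 := ⟨1331675398144, 0, 0, 0⟩
  s02 := ⟨0, 3194132955136, 0, 0⟩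
  s03 := ⟨12664739856384, 0, 0, 0⟩
  s10 := ⟨0, 5123446931456, 0, 0⟩
  s11 := ⟨25517327253504, 0, 0, 0⟩
  g00 := ⟨87990871808, 0, 0, 0⟩
  g01 := ⟨0, 80645376128, 0, 0⟩
  g10 := ⟨4303703500672, 0, 0, 0⟩
  g11 := ⟨0, 0, 0, 0⟩
  f00 := ⟨804215551040, 0, 0, 0⟩
  f01 := ⟨253764007040, 0, 0, 0⟩
  f10 := ⟨41916343551104, 0, 0, 0⟩
  f11 := ⟨0, 0, 0, 0⟩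
  l000 := ⟨0, 0, 0, 0⟩
  l001 := ⟨0, 0, 0, 0⟩
  l002 := ⟨0, 0, 0, 0⟩
  l010 := ⟨0, 0, 0, 0⟩
  l011 := ⟨0, 0, 0, 0⟩
  l020 := ⟨0, 0, 0, 0⟩
  l100 := ⟨0, 0, 0, 0⟩
  l101 := ⟨0, 0, 0, 0⟩
  l102 := ⟨0, 0, 0, 0⟩
  l110 := ⟨0, 0, 0, 0⟩
  l111 := ⟨0, 0, 0, 0⟩
  l120 := ⟨0, 0, 0, 0⟩
  l200 := ⟨0, 0, 0, 0⟩
  l201 := ⟨0, 0, 0, 0⟩
  l210 := ⟨0, 0, 0, 0⟩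
  l300 := ⟨0, 0, 0, 0⟩
  l301 := ⟨0, 0, 0, 0⟩
  l310 := ⟨0, 0, 0, 0⟩
  l400 := ⟨0, 0, 0, 0⟩
  l401 := ⟨0, 0, 0, 0⟩
  l410 := ⟨0, 0, 0, 0⟩
  l500 := ⟨0, 0, 0, 0⟩
  l501 := ⟨0, 0, 0, 0⟩
  l510 := ⟨0, 0, 0, 0⟩
  l600 := ⟨0, 0, 0, 0⟩
  l700 := ⟨0, 0, 0, 0⟩
  l800 := ⟨0, 0, 0, 0⟩
  l900 := ⟨0, 0, 0, 0⟩
  l1000 := ⟨0, 0, 0, 0⟩
  l1100 := ⟨0, 0, 0, 0⟩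
  q00 := ⟨0, 0, 0, 0⟩
  q01 := ⟨0, 0, 0, 0⟩
  q02 := ⟨0, 0, 0, 0⟩
  q03 := ⟨0, 0, 0, 0⟩
  q10 := ⟨0, 0, 0, 0⟩
  q11 := ⟨0, 0, 0, 0⟩
  q12 := ⟨0, 0, 0, 0⟩
  q20 := ⟨0, 0, 0, 0⟩
  q21 := ⟨0, 0, 0, 0⟩
  q30 := ⟨0, 0, 0, 0⟩
  n000 := ⟨0, 0, 0, 0⟩
  n001 := ⟨0, 0, 0, 0⟩
  n002 := ⟨0, 0, 0, 0⟩
  n010 := ⟨0, 0, 0, 0⟩
  n011 := ⟨0, 0, 0, 0⟩
  n020 := ⟨0, 0, 0, 0⟩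
  n100 := ⟨0, 0, 0, 0⟩
  n101 := ⟨0, 0, 0, 0⟩
  n110 := ⟨0, 0, 0, 0⟩
  n200 := ⟨0, 0, 0, 0⟩
  n201 := ⟨0, 0, 0, 0⟩
  n210 := ⟨0, 0, 0, 0⟩
  n300 := ⟨0, 0, 0, 0⟩
  n400 := ⟨0, 0, 0, 0⟩
  n500 := ⟨0, 0, 0, 0⟩
  e00 := ⟨0, 0, 0, 0⟩
  e01 := ⟨0, 0, 0, 0⟩
  e02 := ⟨0, 0, 0, 0⟩
  e03 := ⟨0, 0, 0, 0⟩
  e10 := ⟨0, 0, 0, 0⟩
  e11 := ⟨0, 0, 0, 0⟩
  B1 := 0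

def p1 : Pm where
  ec := ⟨30601641984, 0, 0, 0⟩
  bc := ⟨0, 0, 0, 0⟩
  nn := ⟨2199023255552, 0, 0, 0⟩
  tj := ⟨6597069766656, 0, 0, 0⟩
  ca := ⟨879662989312, 0, 0, 0⟩
  cb := ⟨769604452352, 0, 0, 0⟩
  cc := ⟨0, 0, 0, 0⟩
  ax := ⟨0, 0, 0, 0⟩
  ay := ⟨0, 0, 0, 0⟩
  xa := ⟨0, 0, 0, 0⟩
  C2 := ⟨0, 0, 0, 0⟩
  wr := ⟨0, 814970044416, 0, 0⟩
  wi := ⟨5872294035456, 0, 0, 0⟩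
  w1 := ⟨0, 14637248544768, 0, 0⟩
  h000 := ⟨0, 29881778752, 0, 0⟩
  h001 := ⟨7565918464, 0, 0, 0⟩
  h002 := ⟨2663823232, 0, 0, 0⟩
  h003 := ⟨0, 1220724288, 0, 0⟩
  h010 := ⟨0, 1582738799680, 0, 0⟩
  h011 := ⟨461079070336, 0, 0, 0⟩
  h012 := ⟨0, 0, 0, 0⟩
  h020 := ⟨6674555009536, 0, 0, 0⟩
  h021 := ⟨0, 0, 0, 0⟩
  h030 := ⟨0, 0, 0, 0⟩
  h100 := ⟨2148141568, 0, 0, 0⟩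
  h101 := ⟨0, 291540352, 0, 0⟩
  h102 := ⟨0, 757135296, 0, 0⟩
  h110 := ⟨116652982464, 0, 0, 0⟩
  h111 := ⟨0, 262998050496, 0, 0⟩
  h120 := ⟨0, 0, 0, 0⟩
  h200 := ⟨334015680, 0, 0, 0⟩
  h201 := ⟨0, 299427904, 0, 0⟩
  h202 := ⟨500226496, 0, 0, 0⟩
  h210 := ⟨16317353408, 0, 0, 0⟩
  h211 := ⟨0, 0, 0, 0⟩
  h300 := ⟨0, 104876352, 0, 0⟩
  h301 := ⟨66157632, 0, 0, 0⟩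
  h310 := ⟨0, 5324967808, 0, 0⟩
  h400 := ⟨4714624, 0, 0, 0⟩
  h401 := ⟨0, 7007936, 0, 0⟩
  h410 := ⟨0, 0, 0, 0⟩
  h500 := ⟨1386560, 0, 0, 0⟩
  h501 := ⟨0, 0, 0, 0⟩
  h600 := ⟨0, 380416, 0, 0⟩
  h700 := ⟨0, 0, 0, 0⟩
  h800 := ⟨0, 0, 0, 0⟩
  m000 := ⟨1094396739584, 0, 0, 0⟩
  m001 := ⟨0, 3801088, 0, 0⟩
  m002 := ⟨2416377856, 0, 0, 0⟩
  m010 := ⟨195556343808, 0, 0, 0⟩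
  m100 := ⟨19077464064, 0, 0, 0⟩
  m101 := ⟨508297216, 0, 0, 0⟩
  m110 := ⟨551847067648, 0, 0, 0⟩
  m200 := ⟨0, 1047986176, 0, 0⟩
  m300 := ⟨130154496, 0, 0, 0⟩
  a00 := ⟨89598722048, 0, 0, 0⟩
  a01 := ⟨74841391104, 0, 0, 0⟩
  a02 := ⟨457049112576, 0, 0, 0⟩
  a03 := ⟨0, 1294151778304, 0, 0⟩
  a10 := ⟨663734845440, 0, 0, 0⟩
  a11 := ⟨0, 2631204274176, 0, 0⟩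
  b00 := ⟨75351851008, 0, 0, 0⟩
  b01 := ⟨47544860672, 0, 0, 0⟩
  b02 := ⟨316678209536, 0, 0, 0⟩
  b03 := ⟨0, 992344276992, 0, 0⟩
  b10 := ⟨178415337472, 0, 0, 0⟩
  b11 := ⟨0, 1738386636800, 0, 0⟩
  t00 := ⟨1072186785792, 0, 0, 0⟩
  t01 := ⟨0, 149415788544, 0, 0⟩
  t02 := ⟨3764961017856, 0, 0, 0⟩
  t03 := ⟨0, 10942973935616, 0, 0⟩
  t10 := ⟨7724908478464, 0, 0, 0⟩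
  t11 := ⟨0, 13511761264640, 0, 0⟩
  s00 := ⟨2773779742720, 0, 0, 0⟩
  s01 := ⟨1145648709632, 0, 0, 0⟩
  s02 := ⟨121968394240, 0, 0, 0⟩
  s03 := ⟨6370108375040, 0, 0, 0⟩
  s10 := ⟨6413088784384, 0, 0, 0⟩
  s11 := ⟨9177967755264, 0, 0, 0⟩
  g00 := ⟨87990871808, 0, 0, 0⟩
  g01 := ⟨0, 80645376128, 0, 0⟩
  g10 := ⟨4303703500672, 0, 0, 0⟩
  g11 := ⟨0, 0, 0, 0⟩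
  f00 := ⟨804215551040, 0, 0, 0⟩
  f01 := ⟨253764007040, 0, 0, 0⟩
  f10 := ⟨41916343551104, 0, 0, 0⟩
  f11 := ⟨0, 0, 0, 0⟩
  l000 := ⟨0, 0, 0, 0⟩
  l001 := ⟨0, 0, 0, 0⟩
  l002 := ⟨0, 0, 0, 0⟩
  l010 := ⟨0, 0, 0, 0⟩
  l011 := ⟨0, 0, 0, 0⟩
  l020 := ⟨0, 0, 0, 0⟩
  l100 := ⟨0, 0, 0, 0⟩
  l101 := ⟨0, 0, 0, 0⟩
  l102 := ⟨0, 0, 0, 0⟩
  l110 := ⟨0, 0, 0, 0⟩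
  l111 := ⟨0, 0, 0, 0⟩
  l120 := ⟨0, 0, 0, 0⟩
  l200 := ⟨0, 0, 0, 0⟩
  l201 := ⟨0, 0, 0, 0⟩
  l210 := ⟨0, 0, 0, 0⟩
  l300 := ⟨0, 0, 0, 0⟩
  l301 := ⟨0, 0, 0, 0⟩
  l310 := ⟨0, 0, 0, 0⟩
  l400 := ⟨0, 0, 0, 0⟩
  l401 := ⟨0, 0, 0, 0⟩
  l410 := ⟨0, 0, 0, 0⟩
  l500 := ⟨0, 0, 0, 0⟩
  l501 := ⟨0, 0, 0, 0⟩
  l510 := ⟨0, 0, 0, 0⟩
  l600 := ⟨0, 0, 0, 0⟩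
  l700 := ⟨0, 0, 0, 0⟩
  l800 := ⟨0, 0, 0, 0⟩
  l900 := ⟨0, 0, 0, 0⟩
  l1000 := ⟨0, 0, 0, 0⟩
  l1100 := ⟨0, 0, 0, 0⟩
  q00 := ⟨0, 0, 0, 0⟩
  q01 := ⟨0, 0, 0, 0⟩
  q02 := ⟨0, 0, 0, 0⟩
  q03 := ⟨0, 0, 0, 0⟩
  q10 := ⟨0, 0, 0, 0⟩
  q11 := ⟨0, 0, 0, 0⟩
  q12 := ⟨0, 0, 0, 0⟩
  q20 := ⟨0, 0, 0, 0⟩
  q21 := ⟨0, 0, 0, 0⟩
  q30 := ⟨0, 0, 0, 0⟩
  n000 := ⟨0, 0, 0, 0⟩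
  n001 := ⟨0, 0, 0, 0⟩
  n002 := ⟨0, 0, 0, 0⟩
  n010 := ⟨0, 0, 0, 0⟩
  n011 := ⟨0, 0, 0, 0⟩
  n020 := ⟨0, 0, 0, 0⟩
  n100 := ⟨0, 0, 0, 0⟩
  n101 := ⟨0, 0, 0, 0⟩
  n110 := ⟨0, 0, 0, 0⟩
  n200 := ⟨0, 0, 0, 0⟩
  n201 := ⟨0, 0, 0, 0⟩
  n210 := ⟨0, 0, 0, 0⟩
  n300 := ⟨0, 0, 0, 0⟩
  n400 := ⟨0, 0, 0, 0⟩
  n500 := ⟨0, 0, 0, 0⟩
  e00 := ⟨0, 0, 0, 0⟩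
  e01 := ⟨0, 0, 0, 0⟩
  e02 := ⟨0, 0, 0, 0⟩
  e03 := ⟨0, 0, 0, 0⟩
  e10 := ⟨0, 0, 0, 0⟩
  e11 := ⟨0, 0, 0, 0⟩
  B1 := 0

def p2 : Pm where
  ec := ⟨30601641984, 0, 0, 0⟩
  bc := ⟨0, 0, 0, 0⟩
  nn := ⟨3298534883328, 0, 0, 0⟩
  tj := ⟨8796093022208, 0, 0, 0⟩
  ca := ⟨769604452352, 0, 0, 0⟩
  cb := ⟨659814350848, 0, 0, 0⟩
  cc := ⟨0, 0, 0, 0⟩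
  ax := ⟨0, 0, 0, 0⟩
  ay := ⟨0, 0, 0, 0⟩
  xa := ⟨0, 0, 0, 0⟩
  C2 := ⟨0, 0, 0, 0⟩
  wr := ⟨0, 814970044416, 0, 0⟩
  wi := ⟨5872294035456, 0, 0, 0⟩
  w1 := ⟨0, 14637248544768, 0, 0⟩
  h000 := ⟨0, 29881778752, 0, 0⟩
  h001 := ⟨7565918464, 0, 0, 0⟩
  h002 := ⟨2663823232, 0, 0, 0⟩
  h003 := ⟨0, 1220724288, 0, 0⟩
  h010 := ⟨0, 1582738799680, 0, 0⟩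
  h011 := ⟨461079070336, 0, 0, 0⟩
  h012 := ⟨0, 0, 0, 0⟩
  h020 := ⟨6674555009536, 0, 0, 0⟩
  h021 := ⟨0, 0, 0, 0⟩
  h030 := ⟨0, 0, 0, 0⟩
  h100 := ⟨2148141568, 0, 0, 0⟩
  h101 := ⟨0, 291540352, 0, 0⟩
  h102 := ⟨0, 757135296, 0, 0⟩
  h110 := ⟨116652982464, 0, 0, 0⟩
  h111 := ⟨0, 262998050496, 0, 0⟩
  h120 := ⟨0, 0, 0, 0⟩
  h200 := ⟨334015680, 0, 0, 0⟩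
  h201 := ⟨0, 299427904, 0, 0⟩
  h202 := ⟨500226496, 0, 0, 0⟩
  h210 := ⟨16317353408, 0, 0, 0⟩
  h211 := ⟨0, 0, 0, 0⟩
  h300 := ⟨0, 104876352, 0, 0⟩
  h301 := ⟨66157632, 0, 0, 0⟩
  h310 := ⟨0, 5324967808, 0, 0⟩
  h400 := ⟨4714624, 0, 0, 0⟩
  h401 := ⟨0, 7007936, 0, 0⟩
  h410 := ⟨0, 0, 0, 0⟩
  h500 := ⟨1386560, 0, 0, 0⟩
  h501 := ⟨0, 0, 0, 0⟩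
  h600 := ⟨0, 380416, 0, 0⟩
  h700 := ⟨0, 0, 0, 0⟩
  h800 := ⟨0, 0, 0, 0⟩
  m000 := ⟨1095283441664, 0, 0, 0⟩
  m001 := ⟨494731264, 0, 0, 0⟩
  m002 := ⟨847511552, 0, 0, 0⟩
  m010 := ⟨175708241920, 0, 0, 0⟩
  m100 := ⟨18510053376, 0, 0, 0⟩
  m101 := ⟨459276288, 0, 0, 0⟩
  m110 := ⟨552346910720, 0, 0, 0⟩
  m200 := ⟨0, 907214848, 0, 0⟩
  m300 := ⟨108199936, 0, 0, 0⟩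
  a00 := ⟨75351851008, 0, 0, 0⟩
  a01 := ⟨47544860672, 0, 0, 0⟩
  a02 := ⟨316678209536, 0, 0, 0⟩
  a03 := ⟨0, 992344276992, 0, 0⟩
  a10 := ⟨178415337472, 0, 0, 0⟩
  a11 := ⟨0, 1738386636800, 0, 0⟩
  b00 := ⟨63441141760, 0, 0, 0⟩
  b01 := ⟨36432117760, 0, 0, 0⟩
  b02 := ⟨116113670144, 0, 0, 0⟩
  b03 := ⟨0, 487770030080, 0, 0⟩
  b10 := ⟨0, 158569136128, 0, 0⟩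
  b11 := ⟨0, 983194271744, 0, 0⟩
  t00 := ⟨901917704192, 0, 0, 0⟩
  t01 := ⟨0, 152345509888, 0, 0⟩
  t02 := ⟨2368638615552, 0, 0, 0⟩
  t03 := ⟨0, 7544212553728, 0, 0⟩
  t10 := ⟨1955275603968, 0, 0, 0⟩
  t11 := ⟨0, 999108968448, 0, 0⟩
  s00 := ⟨3845966528512, 0, 0, 0⟩
  s01 := ⟨996232921088, 0, 0, 0⟩
  s02 := ⟨3886929412096, 0, 0, 0⟩
  s03 := ⟨0, 4572865560576, 0, 0⟩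
  s10 := ⟨14137997262848, 0, 0, 0⟩
  s11 := ⟨0, 4333793509376, 0, 0⟩
  g00 := ⟨87990871808, 0, 0, 0⟩
  g01 := ⟨0, 80645376128, 0, 0⟩
  g10 := ⟨4303703500672, 0, 0, 0⟩
  g11 := ⟨0, 0, 0, 0⟩
  f00 := ⟨804215551040, 0, 0, 0⟩
  f01 := ⟨253764007040, 0, 0, 0⟩
  f10 := ⟨41916343551104, 0, 0, 0⟩
  f11 := ⟨0, 0, 0, 0⟩
  l000 := ⟨0, 0, 0, 0⟩
  l001 := ⟨0, 0, 0, 0⟩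
  l002 := ⟨0, 0, 0, 0⟩
  l010 := ⟨0, 0, 0, 0⟩
  l011 := ⟨0, 0, 0, 0⟩
  l020 := ⟨0, 0, 0, 0⟩
  l100 := ⟨0, 0, 0, 0⟩
  l101 := ⟨0, 0, 0, 0⟩
  l102 := ⟨0, 0, 0, 0⟩
  l110 := ⟨0, 0, 0, 0⟩
  l111 := ⟨0, 0, 0, 0⟩
  l120 := ⟨0, 0, 0, 0⟩
  l200 := ⟨0, 0, 0, 0⟩
  l201 := ⟨0, 0, 0, 0⟩
  l210 := ⟨0, 0, 0, 0⟩
  l300 := ⟨0, 0, 0, 0⟩
  l301 := ⟨0, 0, 0, 0⟩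
  l310 := ⟨0, 0, 0, 0⟩
  l400 := ⟨0, 0, 0, 0⟩
  l401 := ⟨0, 0, 0, 0⟩
  l410 := ⟨0, 0, 0, 0⟩
  l500 := ⟨0, 0, 0, 0⟩
  l501 := ⟨0, 0, 0, 0⟩
  l510 := ⟨0, 0, 0, 0⟩
  l600 := ⟨0, 0, 0, 0⟩
  l700 := ⟨0, 0, 0, 0⟩
  l800 := ⟨0, 0, 0, 0⟩
  l900 := ⟨0, 0, 0, 0⟩
  l1000 := ⟨0, 0, 0, 0⟩
  l1100 := ⟨0, 0, 0, 0⟩
  q00 := ⟨0, 0, 0, 0⟩
  q01 := ⟨0, 0, 0, 0⟩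
  q02 := ⟨0, 0, 0, 0⟩
  q03 := ⟨0, 0, 0, 0⟩
  q10 := ⟨0, 0, 0, 0⟩
  q11 := ⟨0, 0, 0, 0⟩
  q12 := ⟨0, 0, 0, 0⟩
  q20 := ⟨0, 0, 0, 0⟩
  q21 := ⟨0, 0, 0, 0⟩
  q30 := ⟨0, 0, 0, 0⟩
  n000 := ⟨0, 0, 0, 0⟩
  n001 := ⟨0, 0, 0, 0⟩
  n002 := ⟨0, 0, 0, 0⟩
  n010 := ⟨0, 0, 0, 0⟩
  n011 := ⟨0, 0, 0, 0⟩
  n020 := ⟨0, 0, 0, 0⟩
  n100 := ⟨0, 0, 0, 0⟩
  n101 := ⟨0, 0, 0, 0⟩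
  n110 := ⟨0, 0, 0, 0⟩
  n200 := ⟨0, 0, 0, 0⟩
  n201 := ⟨0, 0, 0, 0⟩
  n210 := ⟨0, 0, 0, 0⟩
  n300 := ⟨0, 0, 0, 0⟩
  n400 := ⟨0, 0, 0, 0⟩
  n500 := ⟨0, 0, 0, 0⟩
  e00 := ⟨0, 0, 0, 0⟩
  e01 := ⟨0, 0, 0, 0⟩
  e02 := ⟨0, 0, 0, 0⟩
  e03 := ⟨0, 0, 0, 0⟩
  e10 := ⟨0, 0, 0, 0⟩
  e11 := ⟨0, 0, 0, 0⟩
  B1 := 0

def p3 : Pm where
  ec := ⟨30601641984, 0, 0, 0⟩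
  bc := ⟨0, 0, 0, 0⟩
  nn := ⟨4398046511104, 0, 0, 0⟩
  tj := ⟨10995116277760, 0, 0, 0⟩
  ca := ⟨659814350848, 0, 0, 0⟩
  cb := ⟨549755813888, 0, 0, 0⟩
  cc := ⟨0, 0, 0, 0⟩
  ax := ⟨0, 0, 0, 0⟩
  ay := ⟨0, 0, 0, 0⟩
  xa := ⟨0, 0, 0, 0⟩
  C2 := ⟨0, 0, 0, 0⟩
  wr := ⟨0, 814970044416, 0, 0⟩
  wi := ⟨5872294035456, 0, 0, 0⟩
  w1 := ⟨0, 14637248544768, 0, 0⟩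
  h000 := ⟨0, 29881778752, 0, 0⟩
  h001 := ⟨7565918464, 0, 0, 0⟩
  h002 := ⟨2663823232, 0, 0, 0⟩
  h003 := ⟨0, 1220724288, 0, 0⟩
  h010 := ⟨0, 1582738799680, 0, 0⟩
  h011 := ⟨461079070336, 0, 0, 0⟩
  h012 := ⟨0, 0, 0, 0⟩
  h020 := ⟨6674555009536, 0, 0, 0⟩
  h021 := ⟨0, 0, 0, 0⟩
  h030 := ⟨0, 0, 0, 0⟩
  h100 := ⟨2148141568, 0, 0, 0⟩
  h101 := ⟨0, 291540352, 0, 0⟩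
  h102 := ⟨0, 757135296, 0, 0⟩
  h110 := ⟨116652982464, 0, 0, 0⟩
  h111 := ⟨0, 262998050496, 0, 0⟩
  h120 := ⟨0, 0, 0, 0⟩
  h200 := ⟨334015680, 0, 0, 0⟩
  h201 := ⟨0, 299427904, 0, 0⟩
  h202 := ⟨500226496, 0, 0, 0⟩
  h210 := ⟨16317353408, 0, 0, 0⟩
  h211 := ⟨0, 0, 0, 0⟩
  h300 := ⟨0, 104876352, 0, 0⟩
  h301 := ⟨66157632, 0, 0, 0⟩
  h310 := ⟨0, 5324967808, 0, 0⟩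
  h400 := ⟨4714624, 0, 0, 0⟩
  h401 := ⟨0, 7007936, 0, 0⟩
  h410 := ⟨0, 0, 0, 0⟩
  h500 := ⟨1386560, 0, 0, 0⟩
  h501 := ⟨0, 0, 0, 0⟩
  h600 := ⟨0, 380416, 0, 0⟩
  h700 := ⟨0, 0, 0, 0⟩
  h800 := ⟨0, 0, 0, 0⟩
  m000 := ⟨1096161624064, 0, 0, 0⟩
  m001 := ⟨623509504, 0, 0, 0⟩
  m002 := ⟨326828032, 0, 0, 0⟩
  m010 := ⟨173428047872, 0, 0, 0⟩
  m100 := ⟨17916624896, 0, 0, 0⟩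
  m101 := ⟨368312320, 0, 0, 0⟩
  m110 := ⟨556266291200, 0, 0, 0⟩
  m200 := ⟨0, 759889920, 0, 0⟩
  m300 := ⟨83820544, 0, 0, 0⟩
  a00 := ⟨63441141760, 0, 0, 0⟩
  a01 := ⟨36432117760, 0, 0, 0⟩
  a02 := ⟨116113670144, 0, 0, 0⟩
  a03 := ⟨0, 487770030080, 0, 0⟩
  a10 := ⟨0, 158569136128, 0, 0⟩
  a11 := ⟨0, 983194271744, 0, 0⟩
  b00 := ⟨53439561728, 0, 0, 0⟩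
  b01 := ⟨25721831424, 0, 0, 0⟩
  b02 := ⟨0, 13262323712, 0, 0⟩
  b03 := ⟨0, 123234287616, 0, 0⟩
  b10 := ⟨0, 398489026560, 0, 0⟩
  b11 := ⟨0, 298262921216, 0, 0⟩
  t00 := ⟨759642193920, 0, 0, 0⟩
  t01 := ⟨0, 69325291520, 0, 0⟩
  t02 := ⟨640697040896, 0, 0, 0⟩
  t03 := ⟨0, 3376938811392, 0, 0⟩
  t10 := ⟨0, 2046450204672, 0, 0⟩
  t11 := ⟨7343047770112, 0, 0, 0⟩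
  s00 := ⟨4747884232704, 0, 0, 0⟩
  s01 := ⟨843887411200, 0, 0, 0⟩
  s02 := ⟨6255568027648, 0, 0, 0⟩
  s03 := ⟨0, 12117078114304, 0, 0⟩
  s10 := ⟨16093272866816, 0, 0, 0⟩
  s11 := ⟨0, 5332902477824, 0, 0⟩
  g00 := ⟨87990871808, 0, 0, 0⟩
  g01 := ⟨0, 80645376128, 0, 0⟩
  g10 := ⟨4303703500672, 0, 0, 0⟩
  g11 := ⟨0, 0, 0, 0⟩
  f00 := ⟨804215551040, 0, 0, 0⟩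
  f01 := ⟨253764007040, 0, 0, 0⟩
  f10 := ⟨41916343551104, 0, 0, 0⟩
  f11 := ⟨0, 0, 0, 0⟩
  l000 := ⟨0, 0, 0, 0⟩
  l001 := ⟨0, 0, 0, 0⟩
  l002 := ⟨0, 0, 0, 0⟩
  l010 := ⟨0, 0, 0, 0⟩
  l011 := ⟨0, 0, 0, 0⟩
  l020 := ⟨0, 0, 0, 0⟩
  l100 := ⟨0, 0, 0, 0⟩
  l101 := ⟨0, 0, 0, 0⟩
  l102 := ⟨0, 0, 0, 0⟩
  l110 := ⟨0, 0, 0, 0⟩
  l111 := ⟨0, 0, 0, 0⟩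
  l120 := ⟨0, 0, 0, 0⟩
  l200 := ⟨0, 0, 0, 0⟩
  l201 := ⟨0, 0, 0, 0⟩
  l210 := ⟨0, 0, 0, 0⟩
  l300 := ⟨0, 0, 0, 0⟩
  l301 := ⟨0, 0, 0, 0⟩
  l310 := ⟨0, 0, 0, 0⟩
  l400 := ⟨0, 0, 0, 0⟩
  l401 := ⟨0, 0, 0, 0⟩
  l410 := ⟨0, 0, 0, 0⟩
  l500 := ⟨0, 0, 0, 0⟩
  l501 := ⟨0, 0, 0, 0⟩
  l510 := ⟨0, 0, 0, 0⟩
  l600 := ⟨0, 0, 0, 0⟩
  l700 := ⟨0, 0, 0, 0⟩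
  l800 := ⟨0, 0, 0, 0⟩
  l900 := ⟨0, 0, 0, 0⟩
  l1000 := ⟨0, 0, 0, 0⟩
  l1100 := ⟨0, 0, 0, 0⟩
  q00 := ⟨0, 0, 0, 0⟩
  q01 := ⟨0, 0, 0, 0⟩
  q02 := ⟨0, 0, 0, 0⟩
  q03 := ⟨0, 0, 0, 0⟩
  q10 := ⟨0, 0, 0, 0⟩
  q11 := ⟨0, 0, 0, 0⟩
  q12 := ⟨0, 0, 0, 0⟩
  q20 := ⟨0, 0, 0, 0⟩
  q21 := ⟨0, 0, 0, 0⟩
  q30 := ⟨0, 0, 0, 0⟩
  n000 := ⟨0, 0, 0, 0⟩
  n001 := ⟨0, 0, 0, 0⟩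
  n002 := ⟨0, 0, 0, 0⟩
  n010 := ⟨0, 0, 0, 0⟩
  n011 := ⟨0, 0, 0, 0⟩
  n020 := ⟨0, 0, 0, 0⟩
  n100 := ⟨0, 0, 0, 0⟩
  n101 := ⟨0, 0, 0, 0⟩
  n110 := ⟨0, 0, 0, 0⟩
  n200 := ⟨0, 0, 0, 0⟩
  n201 := ⟨0, 0, 0, 0⟩
  n210 := ⟨0, 0, 0, 0⟩
  n300 := ⟨0, 0, 0, 0⟩
  n400 := ⟨0, 0, 0, 0⟩
  n500 := ⟨0, 0, 0, 0⟩
  e00 := ⟨0, 0, 0, 0⟩
  e01 := ⟨0, 0, 0, 0⟩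
  e02 := ⟨0, 0, 0, 0⟩
  e03 := ⟨0, 0, 0, 0⟩
  e10 := ⟨0, 0, 0, 0⟩
  e11 := ⟨0, 0, 0, 0⟩
  B1 := 0

def p4 : Pm where
  ec := ⟨30601641984, 0, 0, 0⟩
  bc := ⟨0, 0, 0, 0⟩
  nn := ⟨5497558138880, 0, 0, 0⟩
  tj := ⟨13194139533312, 0, 0, 0⟩
  ca := ⟨549755813888, 0, 0, 0⟩
  cb := ⟨439697276928, 0, 0, 0⟩
  cc := ⟨0, 0, 0, 0⟩
  ax := ⟨0, 0, 0, 0⟩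
  ay := ⟨0, 0, 0, 0⟩
  xa := ⟨0, 0, 0, 0⟩
  C2 := ⟨0, 0, 0, 0⟩
  wr := ⟨0, 814970044416, 0, 0⟩
  wi := ⟨5872294035456, 0, 0, 0⟩
  w1 := ⟨0, 14637248544768, 0, 0⟩
  h000 := ⟨0, 29881778752, 0, 0⟩
  h001 := ⟨7565918464, 0, 0, 0⟩
  h002 := ⟨2663823232, 0, 0, 0⟩
  h003 := ⟨0, 1220724288, 0, 0⟩
  h010 := ⟨0, 1582738799680, 0, 0⟩
  h011 := ⟨461079070336, 0, 0, 0⟩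
  h012 := ⟨0, 0, 0, 0⟩
  h020 := ⟨6674555009536, 0, 0, 0⟩
  h021 := ⟨0, 0, 0, 0⟩
  h030 := ⟨0, 0, 0, 0⟩
  h100 := ⟨2148141568, 0, 0, 0⟩
  h101 := ⟨0, 291540352, 0, 0⟩
  h102 := ⟨0, 757135296, 0, 0⟩
  h110 := ⟨116652982464, 0, 0, 0⟩
  h111 := ⟨0, 262998050496, 0, 0⟩
  h120 := ⟨0, 0, 0, 0⟩
  h200 := ⟨334015680, 0, 0, 0⟩
  h201 := ⟨0, 299427904, 0, 0⟩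
  h202 := ⟨500226496, 0, 0, 0⟩
  h210 := ⟨16317353408, 0, 0, 0⟩
  h211 := ⟨0, 0, 0, 0⟩
  h300 := ⟨0, 104876352, 0, 0⟩
  h301 := ⟨66157632, 0, 0, 0⟩
  h310 := ⟨0, 5324967808, 0, 0⟩
  h400 := ⟨4714624, 0, 0, 0⟩
  h401 := ⟨0, 7007936, 0, 0⟩
  h410 := ⟨0, 0, 0, 0⟩
  h500 := ⟨1386560, 0, 0, 0⟩
  h501 := ⟨0, 0, 0, 0⟩
  h600 := ⟨0, 380416, 0, 0⟩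
  h700 := ⟨0, 0, 0, 0⟩
  h800 := ⟨0, 0, 0, 0⟩
  m000 := ⟨1096902443008, 0, 0, 0⟩
  m001 := ⟨382664704, 0, 0, 0⟩
  m002 := ⟨232914944, 0, 0, 0⟩
  m010 := ⟨166921502720, 0, 0, 0⟩
  m100 := ⟨17425629184, 0, 0, 0⟩
  m101 := ⟨349241344, 0, 0, 0⟩
  m110 := ⟨567564500992, 0, 0, 0⟩
  m200 := ⟨0, 639369216, 0, 0⟩
  m300 := ⟨63897600, 0, 0, 0⟩
  a00 := ⟨53439561728, 0, 0, 0⟩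
  a01 := ⟨25721831424, 0, 0, 0⟩
  a02 := ⟨0, 13262323712, 0, 0⟩
  a03 := ⟨0, 123234287616, 0, 0⟩
  a10 := ⟨0, 398489026560, 0, 0⟩
  a11 := ⟨0, 298262921216, 0, 0⟩
  b00 := ⟨45085818880, 0, 0, 0⟩
  b01 := ⟨12664832000, 0, 0, 0⟩
  b02 := ⟨0, 79454142464, 0, 0⟩
  b03 := ⟨135995392000, 0, 0, 0⟩
  b10 := ⟨0, 557828603904, 0, 0⟩
  b11 := ⟨308902887424, 0, 0, 0⟩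
  t00 := ⟨640023461888, 0, 0, 0⟩
  t01 := ⟨0, 30223892480, 0, 0⟩
  t02 := ⟨0, 427123212288, 0, 0⟩
  t03 := ⟨0, 548190814208, 0, 0⟩
  t10 := ⟨0, 4921115607040, 0, 0⟩
  t11 := ⟨14140292136960, 0, 0, 0⟩
  s00 := ⟨5507526426624, 0, 0, 0⟩
  s01 := ⟨774562119680, 0, 0, 0⟩
  s02 := ⟨6896265068544, 0, 0, 0⟩
  s03 := ⟨0, 15494016925696, 0, 0⟩
  s10 := ⟨14046822662144, 0, 0, 0⟩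
  s11 := ⟨2010145292288, 0, 0, 0⟩
  g00 := ⟨87990871808, 0, 0, 0⟩
  g01 := ⟨0, 80645376128, 0, 0⟩
  g10 := ⟨4303703500672, 0, 0, 0⟩
  g11 := ⟨0, 0, 0, 0⟩
  f00 := ⟨804215551040, 0, 0, 0⟩
  f01 := ⟨253764007040, 0, 0, 0⟩
  f10 := ⟨41916343551104, 0, 0, 0⟩
  f11 := ⟨0, 0, 0, 0⟩
  l000 := ⟨0, 0, 0, 0⟩
  l001 := ⟨0, 0, 0, 0⟩
  l002 := ⟨0, 0, 0, 0⟩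
  l010 := ⟨0, 0, 0, 0⟩
  l011 := ⟨0, 0, 0, 0⟩
  l020 := ⟨0, 0, 0, 0⟩
  l100 := ⟨0, 0, 0, 0⟩
  l101 := ⟨0, 0, 0, 0⟩
  l102 := ⟨0, 0, 0, 0⟩
  l110 := ⟨0, 0, 0, 0⟩
  l111 := ⟨0, 0, 0, 0⟩
  l120 := ⟨0, 0, 0, 0⟩
  l200 := ⟨0, 0, 0, 0⟩
  l201 := ⟨0, 0, 0, 0⟩
  l210 := ⟨0, 0, 0, 0⟩
  l300 := ⟨0, 0, 0, 0⟩
  l301 := ⟨0, 0, 0, 0⟩
  l310 := ⟨0, 0, 0, 0⟩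
  l400 := ⟨0, 0, 0, 0⟩
  l401 := ⟨0, 0, 0, 0⟩
  l410 := ⟨0, 0, 0, 0⟩
  l500 := ⟨0, 0, 0, 0⟩
  l501 := ⟨0, 0, 0, 0⟩
  l510 := ⟨0, 0, 0, 0⟩
  l600 := ⟨0, 0, 0, 0⟩
  l700 := ⟨0, 0, 0, 0⟩
  l800 := ⟨0, 0, 0, 0⟩
  l900 := ⟨0, 0, 0, 0⟩
  l1000 := ⟨0, 0, 0, 0⟩
  l1100 := ⟨0, 0, 0, 0⟩
  q00 := ⟨0, 0, 0, 0⟩
  q01 := ⟨0, 0, 0, 0⟩
  q02 := ⟨0, 0, 0, 0⟩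
  q03 := ⟨0, 0, 0, 0⟩
  q10 := ⟨0, 0, 0, 0⟩
  q11 := ⟨0, 0, 0, 0⟩
  q12 := ⟨0, 0, 0, 0⟩
  q20 := ⟨0, 0, 0, 0⟩
  q21 := ⟨0, 0, 0, 0⟩
  q30 := ⟨0, 0, 0, 0⟩
  n000 := ⟨0, 0, 0, 0⟩
  n001 := ⟨0, 0, 0, 0⟩
  n002 := ⟨0, 0, 0, 0⟩
  n010 := ⟨0, 0, 0, 0⟩
  n011 := ⟨0, 0, 0, 0⟩
  n020 := ⟨0, 0, 0, 0⟩
  n100 := ⟨0, 0, 0, 0⟩
  n101 := ⟨0, 0, 0, 0⟩
  n110 := ⟨0, 0, 0, 0⟩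
  n200 := ⟨0, 0, 0, 0⟩
  n201 := ⟨0, 0, 0, 0⟩
  n210 := ⟨0, 0, 0, 0⟩
  n300 := ⟨0, 0, 0, 0⟩
  n400 := ⟨0, 0, 0, 0⟩
  n500 := ⟨0, 0, 0, 0⟩
  e00 := ⟨0, 0, 0, 0⟩
  e01 := ⟨0, 0, 0, 0⟩
  e02 := ⟨0, 0, 0, 0⟩
  e03 := ⟨0, 0, 0, 0⟩
  e10 := ⟨0, 0, 0, 0⟩
  e11 := ⟨0, 0, 0, 0⟩
  B1 := 0

def p5 : Pm where
  ec := ⟨30601641984, 0, 0, 0⟩
  bc := ⟨0, 0, 0, 0⟩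
  nn := ⟨6597069766656, 0, 0, 0⟩
  tj := ⟨15393162788864, 0, 0, 0⟩
  ca := ⟨439697276928, 0, 0, 0⟩
  cb := ⟨0, 0, 0, 0⟩
  cc := ⟨0, 0, 0, 0⟩
  ax := ⟨0, 0, 0, 0⟩
  ay := ⟨219902325760, 0, 0, 0⟩
  xa := ⟨4288095453184, 0, 0, 0⟩
  C2 := ⟨1436096814080, 0, 0, 0⟩
  wr := ⟨0, 814970044416, 0, 0⟩
  wi := ⟨5872294035456, 0, 0, 0⟩
  w1 := ⟨0, 14637248544768, 0, 0⟩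
  h000 := ⟨0, 29881778752, 0, 0⟩
  h001 := ⟨7565918464, 0, 0, 0⟩
  h002 := ⟨2663823232, 0, 0, 0⟩
  h003 := ⟨0, 1220724288, 0, 0⟩
  h010 := ⟨0, 1582738799680, 0, 0⟩
  h011 := ⟨461079070336, 0, 0, 0⟩
  h012 := ⟨0, 0, 0, 0⟩
  h020 := ⟨6674555009536, 0, 0, 0⟩
  h021 := ⟨0, 0, 0, 0⟩
  h030 := ⟨0, 0, 0, 0⟩
  h100 := ⟨2148141568, 0, 0, 0⟩
  h101 := ⟨0, 291540352, 0, 0⟩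
  h102 := ⟨0, 757135296, 0, 0⟩
  h110 := ⟨116652982464, 0, 0, 0⟩
  h111 := ⟨0, 262998050496, 0, 0⟩
  h120 := ⟨0, 0, 0, 0⟩
  h200 := ⟨334015680, 0, 0, 0⟩
  h201 := ⟨0, 299427904, 0, 0⟩
  h202 := ⟨500226496, 0, 0, 0⟩
  h210 := ⟨16317353408, 0, 0, 0⟩
  h211 := ⟨0, 0, 0, 0⟩
  h300 := ⟨0, 104876352, 0, 0⟩
  h301 := ⟨66157632, 0, 0, 0⟩
  h310 := ⟨0, 5324967808, 0, 0⟩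
  h400 := ⟨4714624, 0, 0, 0⟩
  h401 := ⟨0, 7007936, 0, 0⟩
  h410 := ⟨0, 0, 0, 0⟩
  h500 := ⟨1386560, 0, 0, 0⟩
  h501 := ⟨0, 0, 0, 0⟩
  h600 := ⟨0, 380416, 0, 0⟩
  h700 := ⟨0, 0, 0, 0⟩
  h800 := ⟨0, 0, 0, 0⟩
  m000 := ⟨1097268789248, 0, 0, 0⟩
  m001 := ⟨489226240, 0, 0, 0⟩
  m002 := ⟨778698752, 0, 0, 0⟩
  m010 := ⟨339188383744, 0, 0, 0⟩
  m100 := ⟨16964517888, 0, 0, 0⟩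
  m101 := ⟨273547264, 0, 0, 0⟩
  m110 := ⟨557259816960, 0, 0, 0⟩
  m200 := ⟨0, 505085952, 0, 0⟩
  m300 := ⟨51314688, 0, 0, 0⟩
  a00 := ⟨45085818880, 0, 0, 0⟩
  a01 := ⟨12664832000, 0, 0, 0⟩
  a02 := ⟨0, 79454142464, 0, 0⟩
  a03 := ⟨135995392000, 0, 0, 0⟩
  a10 := ⟨0, 557828603904, 0, 0⟩
  a11 := ⟨308902887424, 0, 0, 0⟩
  b00 := ⟨0, 0, 0, 0⟩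
  b01 := ⟨0, 0, 0, 0⟩
  b02 := ⟨0, 0, 0, 0⟩
  b03 := ⟨0, 0, 0, 0⟩
  b10 := ⟨0, 0, 0, 0⟩
  b11 := ⟨0, 0, 0, 0⟩
  t00 := ⟨540159574016, 0, 0, 0⟩
  t01 := ⟨0, 26650411008, 0, 0⟩
  t02 := ⟨0, 1390389035008, 0, 0⟩
  t03 := ⟨3026288836608, 0, 0, 0⟩
  t10 := ⟨0, 6819274555392, 0, 0⟩
  t11 := ⟨20005876006912, 0, 0, 0⟩
  s00 := ⟨6147549888512, 0, 0, 0⟩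
  s01 := ⟨744338227200, 0, 0, 0⟩
  s02 := ⟨6469141856256, 0, 0, 0⟩
  s03 := ⟨0, 16042207739904, 0, 0⟩
  s10 := ⟨9125707055104, 0, 0, 0⟩
  s11 := ⟨16150437429248, 0, 0, 0⟩
  g00 := ⟨87990871808, 0, 0, 0⟩
  g01 := ⟨0, 80645376128, 0, 0⟩
  g10 := ⟨4303703500672, 0, 0, 0⟩
  g11 := ⟨0, 0, 0, 0⟩
  f00 := ⟨804215551040, 0, 0, 0⟩
  f01 := ⟨253764007040, 0, 0, 0⟩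
  f10 := ⟨41916343551104, 0, 0, 0⟩
  f11 := ⟨0, 0, 0, 0⟩
  l000 := ⟨0, 0, 0, 0⟩
  l001 := ⟨0, 0, 0, 0⟩
  l002 := ⟨0, 0, 0, 0⟩
  l010 := ⟨0, 0, 0, 0⟩
  l011 := ⟨0, 0, 0, 0⟩
  l020 := ⟨0, 0, 0, 0⟩
  l100 := ⟨0, 0, 0, 0⟩
  l101 := ⟨0, 0, 0, 0⟩
  l102 := ⟨0, 0, 0, 0⟩
  l110 := ⟨0, 0, 0, 0⟩
  l111 := ⟨0, 0, 0, 0⟩
  l120 := ⟨0, 0, 0, 0⟩
  l200 := ⟨0, 0, 0, 0⟩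
  l201 := ⟨0, 0, 0, 0⟩
  l210 := ⟨0, 0, 0, 0⟩
  l300 := ⟨0, 0, 0, 0⟩
  l301 := ⟨0, 0, 0, 0⟩
  l310 := ⟨0, 0, 0, 0⟩
  l400 := ⟨0, 0, 0, 0⟩
  l401 := ⟨0, 0, 0, 0⟩
  l410 := ⟨0, 0, 0, 0⟩
  l500 := ⟨0, 0, 0, 0⟩
  l501 := ⟨0, 0, 0, 0⟩
  l510 := ⟨0, 0, 0, 0⟩
  l600 := ⟨0, 0, 0, 0⟩
  l700 := ⟨0, 0, 0, 0⟩
  l800 := ⟨0, 0, 0, 0⟩
  l900 := ⟨0, 0, 0, 0⟩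
  l1000 := ⟨0, 0, 0, 0⟩
  l1100 := ⟨0, 0, 0, 0⟩
  q00 := ⟨0, 0, 0, 0⟩
  q01 := ⟨0, 0, 0, 0⟩
  q02 := ⟨0, 0, 0, 0⟩
  q03 := ⟨0, 0, 0, 0⟩
  q10 := ⟨0, 0, 0, 0⟩
  q11 := ⟨0, 0, 0, 0⟩
  q12 := ⟨0, 0, 0, 0⟩
  q20 := ⟨0, 0, 0, 0⟩
  q21 := ⟨0, 0, 0, 0⟩
  q30 := ⟨0, 0, 0, 0⟩
  n000 := ⟨0, 0, 0, 0⟩
  n001 := ⟨0, 0, 0, 0⟩
  n002 := ⟨0, 0, 0, 0⟩
  n010 := ⟨0, 0, 0, 0⟩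
  n011 := ⟨0, 0, 0, 0⟩
  n020 := ⟨0, 0, 0, 0⟩
  n100 := ⟨0, 0, 0, 0⟩
  n101 := ⟨0, 0, 0, 0⟩
  n110 := ⟨0, 0, 0, 0⟩
  n200 := ⟨0, 0, 0, 0⟩
  n201 := ⟨0, 0, 0, 0⟩
  n210 := ⟨0, 0, 0, 0⟩
  n300 := ⟨0, 0, 0, 0⟩
  n400 := ⟨0, 0, 0, 0⟩
  n500 := ⟨0, 0, 0, 0⟩
  e00 := ⟨0, 0, 0, 0⟩
  e01 := ⟨0, 0, 0, 0⟩
  e02 := ⟨0, 0, 0, 0⟩
  e03 := ⟨0, 0, 0, 0⟩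
  e10 := ⟨0, 0, 0, 0⟩
  e11 := ⟨0, 0, 0, 0⟩
  B1 := 1099511627776

def pF : Pm where
  ec := ⟨30601641984, 0, 0, 0⟩
  bc := ⟨0, 0, 0, 0⟩
  nn := ⟨0, 0, 0, 0⟩
  tj := ⟨2199023255552, 0, 0, 0⟩
  ca := ⟨1099511627776, 0, 0, 0⟩
  cb := ⟨0, 0, 0, 0⟩
  cc := ⟨879662989312, 0, 0, 0⟩
  ax := ⟨0, 0, 0, 0⟩
  ay := ⟨0, 0, 0, 0⟩
  xa := ⟨0, 0, 0, 0⟩
  C2 := ⟨0, 0, 0, 0⟩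
  wr := ⟨0, 814970044416, 0, 0⟩
  wi := ⟨5872294035456, 0, 0, 0⟩
  w1 := ⟨0, 14637248544768, 0, 0⟩
  h000 := ⟨0, 29881778752, 0, 0⟩
  h001 := ⟨7565918464, 0, 0, 0⟩
  h002 := ⟨2663823232, 0, 0, 0⟩
  h003 := ⟨0, 1220724288, 0, 0⟩
  h010 := ⟨0, 1582738799680, 0, 0⟩
  h011 := ⟨461079070336, 0, 0, 0⟩
  h012 := ⟨0, 0, 0, 0⟩
  h020 := ⟨6674555009536, 0, 0, 0⟩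
  h021 := ⟨0, 0, 0, 0⟩
  h030 := ⟨0, 0, 0, 0⟩
  h100 := ⟨2148141568, 0, 0, 0⟩
  h101 := ⟨0, 291540352, 0, 0⟩
  h102 := ⟨0, 757135296, 0, 0⟩
  h110 := ⟨116652982464, 0, 0, 0⟩
  h111 := ⟨0, 262998050496, 0, 0⟩
  h120 := ⟨0, 0, 0, 0⟩
  h200 := ⟨334015680, 0, 0, 0⟩
  h201 := ⟨0, 299427904, 0, 0⟩
  h202 := ⟨500226496, 0, 0, 0⟩
  h210 := ⟨16317353408, 0, 0, 0⟩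
  h211 := ⟨0, 0, 0, 0⟩
  h300 := ⟨0, 104876352, 0, 0⟩
  h301 := ⟨66157632, 0, 0, 0⟩
  h310 := ⟨0, 5324967808, 0, 0⟩
  h400 := ⟨4714624, 0, 0, 0⟩
  h401 := ⟨0, 7007936, 0, 0⟩
  h410 := ⟨0, 0, 0, 0⟩
  h500 := ⟨1386560, 0, 0, 0⟩
  h501 := ⟨0, 0, 0, 0⟩
  h600 := ⟨0, 380416, 0, 0⟩
  h700 := ⟨0, 0, 0, 0⟩
  h800 := ⟨0, 0, 0, 0⟩
  m000 := ⟨0, 0, 0, 0⟩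
  m001 := ⟨0, 0, 0, 0⟩
  m002 := ⟨0, 0, 0, 0⟩
  m010 := ⟨0, 0, 0, 0⟩
  m100 := ⟨0, 0, 0, 0⟩
  m101 := ⟨0, 0, 0, 0⟩
  m110 := ⟨0, 0, 0, 0⟩
  m200 := ⟨0, 0, 0, 0⟩
  m300 := ⟨0, 0, 0, 0⟩
  a00 := ⟨110755774464, 0, 0, 0⟩
  a01 := ⟨135424245760, 0, 0, 0⟩
  a02 := ⟨420464164864, 0, 0, 0⟩
  a03 := ⟨0, 888688476160, 0, 0⟩
  a10 := ⟨985777831936, 0, 0, 0⟩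
  a11 := ⟨0, 2605876969472, 0, 0⟩
  b00 := ⟨0, 0, 0, 0⟩
  b01 := ⟨0, 0, 0, 0⟩
  b02 := ⟨0, 0, 0, 0⟩
  b03 := ⟨0, 0, 0, 0⟩
  b10 := ⟨0, 0, 0, 0⟩
  b11 := ⟨0, 0, 0, 0⟩
  t00 := ⟨1448626159616, 0, 0, 0⟩
  t01 := ⟨1331675398144, 0, 0, 0⟩
  t02 := ⟨0, 3194132955136, 0, 0⟩
  t03 := ⟨12664739856384, 0, 0, 0⟩
  t10 := ⟨0, 5123446931456, 0, 0⟩
  t11 := ⟨25517327253504, 0, 0, 0⟩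
  s00 := ⟨0, 0, 0, 0⟩
  s01 := ⟨0, 0, 0, 0⟩
  s02 := ⟨0, 0, 0, 0⟩
  s03 := ⟨0, 0, 0, 0⟩
  s10 := ⟨0, 0, 0, 0⟩
  s11 := ⟨0, 0, 0, 0⟩
  g00 := ⟨87990871808, 0, 0, 0⟩
  g01 := ⟨0, 80645376128, 0, 0⟩
  g10 := ⟨4303703500672, 0, 0, 0⟩
  g11 := ⟨0, 0, 0, 0⟩
  f00 := ⟨804215551040, 0, 0, 0⟩
  f01 := ⟨253764007040, 0, 0, 0⟩
  f10 := ⟨41916343551104, 0, 0, 0⟩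
  f11 := ⟨0, 0, 0, 0⟩
  l000 := ⟨3463839412160, 0, 0, 0⟩
  l001 := ⟨4422957440, 0, 0, 0⟩
  l002 := ⟨0, 0, 0, 0⟩
  l010 := ⟨0, 628958066112, 0, 0⟩
  l011 := ⟨0, 0, 0, 0⟩
  l020 := ⟨0, 0, 0, 0⟩
  l100 := ⟨1422853026880, 0, 0, 0⟩
  l101 := ⟨0, 28919872832, 0, 0⟩
  l102 := ⟨0, 0, 0, 0⟩
  l110 := ⟨0, 12011966124544, 0, 0⟩
  l111 := ⟨0, 0, 0, 0⟩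
  l120 := ⟨0, 0, 0, 0⟩
  l200 := ⟨537513036864, 0, 0, 0⟩
  l201 := ⟨75414820224, 0, 0, 0⟩
  l210 := ⟨0, 10075580845440, 0, 0⟩
  l300 := ⟨0, 63057986880, 0, 0⟩
  l301 := ⟨0, 408191983040, 0, 0⟩
  l310 := ⟨0, 56683925400448, 0, 0⟩
  l400 := ⟨779817428224, 0, 0, 0⟩
  l401 := ⟨434238471936, 0, 0, 0⟩
  l410 := ⟨65723172791680, 0, 0, 0⟩
  l500 := ⟨378096958848, 0, 0, 0⟩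
  l501 := ⟨0, 924890110848, 0, 0⟩
  l510 := ⟨0, 94030014705856, 0, 0⟩
  l600 := ⟨0, 1526594453504, 0, 0⟩
  l700 := ⟨11871554762816, 0, 0, 0⟩
  l800 := ⟨0, 23615646964544, 0, 0⟩
  l900 := ⟨40993258463744, 0, 0, 0⟩
  l1000 := ⟨0, 31972842279744, 0, 0⟩
  l1100 := ⟨21051108152832, 0, 0, 0⟩
  q00 := ⟨0, 4837721344, 0, 0⟩
  q01 := ⟨123415964160, 0, 0, 0⟩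
  q02 := ⟨36138049024, 0, 0, 0⟩
  q03 := ⟨0, 0, 0, 0⟩
  q10 := ⟨0, 718747085952, 0, 0⟩
  q11 := ⟨7711667434944, 0, 0, 0⟩
  q12 := ⟨0, 0, 0, 0⟩
  q20 := ⟨161234424617984, 0, 0, 0⟩
  q21 := ⟨0, 0, 0, 0⟩
  q30 := ⟨0, 0, 0, 0⟩
  n000 := ⟨1096353841152, 0, 0, 0⟩
  n001 := ⟨0, 14978056192, 0, 0⟩
  n002 := ⟨28231663616, 0, 0, 0⟩
  n010 := ⟨0, 544038977536, 0, 0⟩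
  n011 := ⟨1279465816064, 0, 0, 0⟩
  n020 := ⟨33210416037888, 0, 0, 0⟩
  n100 := ⟨85484568576, 0, 0, 0⟩
  n101 := ⟨27551662080, 0, 0, 0⟩
  n110 := ⟨3988130889728, 0, 0, 0⟩
  n200 := ⟨0, 43556143104, 0, 0⟩
  n201 := ⟨0, 59630354432, 0, 0⟩
  n210 := ⟨2438049955840, 0, 0, 0⟩
  n300 := ⟨471770923008, 0, 0, 0⟩
  n400 := ⟨0, 642431844352, 0, 0⟩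
  n500 := ⟨460328402944, 0, 0, 0⟩
  e00 := ⟨180323155968, 0, 0, 0⟩
  e01 := ⟨441060950016, 0, 0, 0⟩
  e02 := ⟨156081848320, 0, 0, 0⟩
  e03 := ⟨4246942842880, 0, 0, 0⟩
  e10 := ⟨1795831169024, 0, 0, 0⟩
  e11 := ⟨1796422959104, 0, 0, 0⟩
  B1 := 0

end Pool.Agent.helper12.K30
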